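import Pool.Agent.Lib.MP_e1fd79_gt.Interfaces

/-!
# MP_e1fd79_gt, module LIP
-/

set_option autoImplicit false

open scoped ContDiff Topology
open MeasureTheory Filter

namespace Pool.Agent.Lib.MP_e1fd79_gt.H63

/-- The speed of a `C¹` curve is continuous. -/
theorem continuous_speed {n : ℕ} (M : RMetric n) {c : ℝ → Fin n → ℝ} (hc : ContDiff ℝ 1 c) :
    Continuous fun s => √(M.inner (c s) (deriv c s) (deriv c s)) := by
  have h1 : Continuous (deriv c) := hc.continuous_deriv le_rfl
  have h2 : Continuous c := hc.continuous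
  refine Real.continuous_sqrt.comp ?_
  unfold RMetric.inner
  refine continuous_finsetSum _ fun i _ => continuous_finsetSum _ fun j _ => ?_
  exact (((M.smooth i j).continuous.comp h2).mul ((continuous_apply i).comp h1)).mul
    ((continuous_apply j).comp h1)

/-- The estimate along one curve. -/
theorem abs_sub_le_length {n : ℕ} (M : RMetric n) (w : (Fin n → ℝ) → ℝ) (L : ℝ) (hL : 0 ≤ L)
    (hw : ContDiff ℝ 1 w) (h : ∀ x v, (fderiv ℝ w x v) ^ 2 ≤ L ^ 2 * M.inner x v v)
    (c : ℝ → Fin n → ℝ) (hc : ContDiff ℝ 1 c) : |w (c 1) - w (c 0)| ≤ L * M.length c := by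
  have hwc : ∀ s, HasDerivAt (fun s => w (c s)) (fderiv ℝ w (c s) (deriv c s)) s := by
    intro s
    have h1 : HasFDerivAt w (fderiv ℝ w (c s)) (c s) :=
      (hw.differentiable one_ne_zero (c s)).hasFDerivAt
    have h2 : HasDerivAt c (deriv c s) s := (hc.differentiable one_ne_zero s).hasDerivAt
    exact h1.comp_hasDerivAt s h2
  have hcont : Continuous fun s => fderiv ℝ w (c s) (deriv c s) :=
    ((hw.continuous_fderiv one_ne_zero).comp hc.continuous).clm_apply (hc.continuous_deriv le_rfl)
  have hint : w (c 1) - w (c 0) = ∫ s in (0 : ℝ)..1, fderiv ℝ w (c s) (deriv c s) :=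
    (intervalIntegral.integral_eq_sub_of_hasDerivAt (fun s _ => hwc s)
      (hcont.intervalIntegrable 0 1)).symm
  rw [hint]
  calc |∫ s in (0 : ℝ)..1, fderiv ℝ w (c s) (deriv c s)|
      ≤ ∫ s in (0 : ℝ)..1, |fderiv ℝ w (c s) (deriv c s)| :=
        intervalIntegral.abs_integral_le_integral_abs zero_le_one
    _ ≤ ∫ s in (0 : ℝ)..1, L * √(M.inner (c s) (deriv c s) (deriv c s)) := by
        refine intervalIntegral.integral_mono_on zero_le_one
          (hcont.abs.intervalIntegrable 0 1)
          ((continuous_const.mul (continuous_speed M hc)).intervalIntegrable 0 1) fun s _ => ?_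
        have h3 := h (c s) (deriv c s)
        rw [← Real.sqrt_sq_eq_abs]
        calc √((fderiv ℝ w (c s) (deriv c s)) ^ 2)
            ≤ √(L ^ 2 * M.inner (c s) (deriv c s) (deriv c s)) := Real.sqrt_le_sqrt h3
          _ = L * √(M.inner (c s) (deriv c s) (deriv c s)) := by
              rw [Real.sqrt_mul (sq_nonneg L), Real.sqrt_sq hL]
    _ = L * M.length c := by
        rw [intervalIntegral.integral_const_mul]
        rfl

/-- The straight segment. -/
theorem contDiff_segment {n : ℕ} (p q : Fin n → ℝ) :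
    ContDiff ℝ 1 fun s : ℝ => p + s • (q - p) :=
  contDiff_const.add (contDiff_id.smul contDiff_const)

/-- Module LIP. -/
theorem lip_holds : LipStatement := by
  intro n M w L hL hw h p q
  have hne : {l : ℝ | ∃ c : ℝ → Fin n → ℝ, ContDiff ℝ 1 c ∧ c 0 = p ∧ c 1 = q ∧
      M.length c = l}.Nonempty :=
    ⟨_, fun s => p + s • (q - p), contDiff_segment p q, by simp, by simp, rfl⟩
  have hall : ∀ l ∈ {l : ℝ | ∃ c : ℝ → Fin n → ℝ, ContDiff ℝ 1 c ∧ c 0 = p ∧ c 1 = q ∧
      M.length c = l}, |w q - w p| ≤ L * l := by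
    rintro l ⟨c, hc, h0, h1, rfl⟩
    have := abs_sub_le_length M w L hL hw h c hc
    rwa [h0, h1] at this
  rcases hL.eq_or_lt with h0 | h0
  · obtain ⟨l, hl⟩ := hne
    have := hall l hl
    rw [← h0, zero_mul] at this ⊢
    exact this
  · have h1 : |w q - w p| / L ≤ M.dist p q :=
      le_csInf hne fun l hl => by
        rw [div_le_iff₀ h0, mul_comm]
        exact hall l hl
    rwa [div_le_iff₀ h0, mul_comm] at h1

end Pool.Agent.Lib.MP_e1fd79_gt.H63
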