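import Pool.Agent.Lib.MP_e1fd79_gt.H63.Lip

/-!
# MP_e1fd79_gt, module SEG
-/

set_option autoImplicit false

open scoped ContDiff Topology
open MeasureTheory Filter

namespace Pool.Agent.Lib.MP_e1fd79_gt.H63

theorem length_nonneg {n : ℕ} (M : RMetric n) (c : ℝ → Fin n → ℝ) : 0 ≤ M.length c :=
  intervalIntegral.integral_nonneg zero_le_one fun _ _ => Real.sqrt_nonneg _

theorem dist_le_length {n : ℕ} (M : RMetric n) (c : ℝ → Fin n → ℝ) (hc : ContDiff ℝ 1 c) :
    M.dist (c 0) (c 1) ≤ M.length c :=
  csInf_le ⟨0, by rintro _ ⟨c', -, -, -, rfl⟩; exact length_nonneg M c'⟩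
    ⟨c, hc, rfl, rfl, rfl⟩

/-- Module SEG. -/
theorem seg_holds : SegStatement := by
  intro n M u x hu ε hε
  let G : (Fin n → ℝ) → ℝ → ℝ := fun y s => √(M.inner (y + s • (x - y)) (x - y) (x - y))
  have hG : Continuous (Function.uncurry G) := by
    refine Real.continuous_sqrt.comp ?_
    unfold RMetric.inner
    refine continuous_finsetSum _ fun i _ => continuous_finsetSum _ fun j _ => ?_
    have h1 : Continuous fun p : (Fin n → ℝ) × ℝ => p.1 + p.2 • (x - p.1) := by fun_prop
    have h2 : ∀ k : Fin n, Continuous fun p : (Fin n → ℝ) × ℝ => (x - p.1) k := fun k =>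
      (continuous_apply k).comp (continuous_const.sub continuous_fst)
    exact (((M.smooth i j).continuous.comp h1).mul (h2 i)).mul (h2 j)
  have hF : Continuous fun y => ∫ s in (0 : ℝ)..1, G y s :=
    intervalIntegral.continuous_parametric_intervalIntegral_of_continuous' hG 0 1
  have hFx : ∫ s in (0 : ℝ)..1, G x s = 0 := by
    have : ∀ s, G x s = 0 := by
      intro s
      simp [G, RMetric.inner]
    simp [this]
  have hle : ∀ y, M.dist y x ≤ ∫ s in (0 : ℝ)..1, G y s := by
    intro y
    have h1 := dist_le_length M (fun s : ℝ => y + s • (x - y)) (contDiff_segment y x)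
    have h2 : M.length (fun s : ℝ => y + s • (x - y)) = ∫ s in (0 : ℝ)..1, G y s := by
      unfold RMetric.length
      refine intervalIntegral.integral_congr fun s _ => ?_
      have h3 : deriv (fun s : ℝ => y + s • (x - y)) s = x - y := by
        have h4 : HasDerivAt (fun s : ℝ => y + s • (x - y)) ((1 : ℝ) • (x - y)) s :=
          ((hasDerivAt_id s).smul_const (x - y)).const_add y
        rw [h4.deriv, one_smul]
      change √(M.inner (y + s • (x - y)) (deriv (fun s : ℝ => y + s • (x - y)) s)
        (deriv (fun s : ℝ => y + s • (x - y)) s)) = _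
      rw [h3]
    have h5 : y + (0 : ℝ) • (x - y) = y := by simp
    have h6 : y + (1 : ℝ) • (x - y) = x := by simp
    rw [h2] at h1
    change M.dist (y + (0 : ℝ) • (x - y)) (y + (1 : ℝ) • (x - y)) ≤ _ at h1
    rw [h5, h6] at h1
    exact h1
  have hlim : Tendsto (fun i => ∫ s in (0 : ℝ)..1, G (u i) s) atTop (𝓝 0) := by
    have h7 := (hF.tendsto x).comp hu
    rw [hFx] at h7
    exact h7
  obtain ⟨K, hK⟩ := eventually_atTop.1 (hlim.eventually (gt_mem_nhds hε))
  exact ⟨K, fun i hi => (hle (u i)).trans_lt (hK i hi)⟩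

end Pool.Agent.Lib.MP_e1fd79_gt.H63
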